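import Pool.Agent.Lib.KPInt.Final

open PowerSeries MPa4e0fb KPInt

namespace Pool.Agent.Results.MP_a4e0fb_ag.CompleteIntersections

/-- **Integrality of the Klemm-Pandharipande numbers of genus zero and one, in all degrees, for the
seven families of Calabi-Yau 4-folds that are complete intersections in a projective space.**
`types` is the list of the seven multidegrees `a`. `Bj a n` is the coefficient of `z^n` of
Givental's hypergeometric series, a power series in `ε`; `Lj (Bj a) i` is the coefficient of `ε^i`;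
`gg = L₁/L₀`, `q(z) = z exp(gg)`, `GG = L₂/L₀ - gg²/2`, `Ph (Bj a) f = f(q(z))`;
`kap a = ∏ a_i = ∫ H⁴`, `c_2(X) = cc2 a • H²`, `c3H a = ∫ c_3(X) H`, `chi a = χ(X)`,
`Wz a = (χ - 72) log L₀ - 24 log (1 + θ gg) - log (1 - ∏ a_i^{a_i} z) + (∫ c_3(X) H) gg`.
`mirror0`, `mirror1` are the mirror formulas of genus 0 and 1. `n0 d = n_{0,d}(H²)`. -/
theorem result (a : List ℕ) (ha : a ∈ types) (n0 n1 : ℤ → ℚ) (m : ℤ → ℤ → ℚ) (GW0 GW1 : ℕ → ℚ)
    (hn0 : ∀ d : ℤ, d ≤ 0 → n0 d = 0)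
    (hGW0 : ∀ d : ℕ, 0 < d → GW0 d = mcs (fun k => 1 / (k : ℚ) ^ 2) n0 (d : ℤ))
    (mirror0 : Ph (Bj a) (mk fun d => if d = 0 then 0 else GW0 d) = C (kap a) * GG (Bj a))
    (hm : IsMeeting (AddMonoidHom.id ℤ) (fun d => cc2 a * n0 d)
      (fun x y => n0 x * n0 y / kap a) m)
    (hn1 : IsGenusOne {d : ℤ | 0 < d} (fun d => GW1 d.toNat) (fun d => cc2 a * n0 d) m n1)
    (mirror1 : Ph (Bj a) (mk fun d => if d = 0 then 0 else GW1 d) = C (1 / 24) * Wz a) :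
    ∀ d : ℤ, 0 < d → (∃ z : ℤ, n0 d = kap a * z) ∧ (∃ z : ℤ, n1 d = z) :=
  KPInt.main a ha n0 n1 m GW0 GW1 hn0 hGW0 mirror0 hm hn1 mirror1

end Pool.Agent.Results.MP_a4e0fb_ag.CompleteIntersections
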