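import Pool.Agent.Lib.MP_a4e0fb_ag.H72IntClasses
import Pool.Agent.Lib.MP_a4e0fb_ag.H72LocalP2d

open Finset MPa4e0fb

namespace Pool.Agent.Results.MP_a4e0fb_ag.ExtremalPlane

lemma exists_necklace : ∃ G : ℕ → ℚ, ∀ d : ℕ, 0 < d →
    ∑ a ∈ d.divisors, (a : ℚ) ^ 1 * G a = (((-4) ^ d : ℤ) : ℚ) := by
  let f : ℕ → ℚ := fun d => ∑ x ∈ d.divisorsAntidiagonal,
    (ArithmeticFunction.moebius x.1 : ℚ) * (((-4) ^ x.2 : ℤ) : ℚ)
  have h := (ArithmeticFunction.sum_eq_iff_sum_mul_moebius_eq (R := ℚ) (f := f)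
    (g := fun d => (((-4) ^ d : ℤ) : ℚ))).mpr (fun n _ => rfl)
  refine ⟨fun d => f d / d, fun d hd => ?_⟩
  rw [← h d hd]
  apply Finset.sum_congr rfl
  intro a ha
  have : (a : ℚ) ≠ 0 := by
    have := Nat.pos_of_mem_divisors ha
    positivity
  field_simp

/-- All genus-zero and genus-one Klemm-Pandharipande numbers of the classes `d ℓ`, `d ≥ 1`, on an
extremal ray whose curves are the curves of a plane with normal bundle `O(-1) ⊕ O(-2)`, are
integers. Here `n0 d` is `n_{0,dℓ}(γ)` for a class `γ` with `γ · [P²] = 1`; `[P²]² = 2`,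
`c₂(X) · [P²] = -4`. -/
theorem result (n0 n1 : ℤ → ℚ) (m : ℤ → ℤ → ℚ)
    (hn0 : ∀ d : ℤ, d ≤ 0 → n0 d = 0)
    (hGW0 : ∀ d : ℕ, 0 < d →
      (-1 : ℚ) ^ d * ((2 * d).choose d : ℚ) / (2 * (d : ℚ) ^ 2) =
        mcs (fun k => 1 / (k : ℚ) ^ 2) n0 (d : ℤ))
    (hm : IsMeeting (AddMonoidHom.id ℤ) (fun d => -4 * n0 d) (fun a b => 2 * n0 a * n0 b) m)
    (hn1 : IsGenusOne {d : ℤ | 0 < d} (fun d => (-4 : ℚ) ^ d.toNat / (24 * d))
      (fun d => -4 * n0 d) m n1) :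
    ∀ d : ℤ, 0 < d → (∃ z : ℤ, n0 d = z) ∧ (∃ z : ℤ, n1 d = z) := by
  have hn0' : ∀ α, α ∉ {d : ℤ | 0 < d} → n0 α = 0 := by
    intro α hα
    apply hn0
    by_contra h
    apply hα
    show 0 < α
    omega
  -- step 1
  have h1 : ∀ d : ℕ, 0 < d → ∑ a ∈ d.divisors, (a : ℚ) ^ 2 * n0 (a : ℤ) = bb d := by
    intro d hd
    have h := hGW0 d hd
    rw [mcs_int _ hn0'] at h
    have hd' : (d : ℚ) ≠ 0 := by positivity
    have h2 : ∑ a ∈ d.divisors, (a : ℚ) ^ 2 * n0 (a : ℤ) =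
        (d : ℚ) ^ 2 * ∑ a ∈ d.divisors, 1 / ((d / a : ℕ) : ℚ) ^ 2 * n0 (a : ℤ) := by
      rw [Finset.mul_sum]
      apply Finset.sum_congr rfl
      intro a ha
      have ha0 := Nat.pos_of_mem_divisors ha
      have ha' : (a : ℚ) ≠ 0 := by positivity
      rw [Nat.cast_div (Nat.dvd_of_mem_divisors ha) ha']
      field_simp
    rw [h2, ← h]
    have h3 := two_bb hd
    rw [Nat.centralBinom_eq_two_mul_choose] at h3
    have h4 : (2 : ℚ) * (bb d : ℚ) = (-1) ^ d * ((2 * d).choose d : ℚ) := by exact_mod_cast h3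
    rw [← h4]
    field_simp
  -- step 2
  have hint0 := dwork_int 2 bb bb_dwork (fun a => n0 (a : ℤ)) h1
  have hex : ∀ a : ℕ, ∃ z : ℤ, n0 (a : ℤ) = z := by
    intro a
    rcases Nat.eq_zero_or_pos a with h | h
    · exact ⟨0, by rw [h]; simpa using hn0 0 le_rfl⟩
    · exact hint0 a h
  choose nz hnz using hex
  have hn : ∀ d : ℕ, 0 < d → ∑ a ∈ d.divisors, (a : ℤ) ^ 2 * nz a = bb d := by
    intro d hd
    have h := h1 d hd
    have h2 : ∑ a ∈ d.divisors, (a : ℚ) ^ 2 * n0 (a : ℤ) =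
        ((∑ a ∈ d.divisors, (a : ℤ) ^ 2 * nz a : ℤ) : ℚ) := by
      push_cast
      apply Finset.sum_congr rfl
      intro a _
      rw [hnz a]
    rw [h2] at h
    exact_mod_cast h
  -- step 3
  obtain ⟨Gq, hGq⟩ := exists_necklace
  have hintG := dwork_int 1 (fun d => (-4) ^ d) (pow_dwork (-4)) Gq hGq
  have hexG : ∀ a : ℕ, ∃ z : ℤ, 0 < a → Gq a = z := by
    intro a
    rcases Nat.eq_zero_or_pos a with h | h
    · exact ⟨0, fun h' => by omega⟩
    · obtain ⟨z, hz⟩ := hintG a h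
      exact ⟨z, fun _ => hz⟩
  choose Gz hGz using hexG
  have hG : ∀ d : ℕ, 0 < d → ∑ a ∈ d.divisors, (a : ℤ) * Gz a = (-4) ^ d := by
    intro d hd
    have h := hGq d hd
    have h2 : ∑ a ∈ d.divisors, (a : ℚ) ^ 1 * Gq a =
        ((∑ a ∈ d.divisors, (a : ℤ) * Gz a : ℤ) : ℚ) := by
      push_cast
      apply Finset.sum_congr rfl
      intro a ha
      rw [hGz a (Nat.pos_of_mem_divisors ha), pow_one]
    rw [h2] at h
    exact_mod_cast h
  -- step 4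
  let g : ℤ → ℚ := fun α => if 0 < α then (Gz α.toNat : ℚ) / 24 else 0
  have hg0 : ∀ α, α ∉ {d : ℤ | 0 < d} → g α = 0 := by
    intro α hα
    have : ¬ 0 < α := hα
    simp only [g, if_neg this]
  have hgn : ∀ a : ℕ, 0 < a → g (a : ℤ) = (Gz a : ℚ) / 24 := by
    intro a ha
    have : (0 : ℤ) < (a : ℤ) := by exact_mod_cast ha
    simp only [g, if_pos this, Int.toNat_natCast]
  have hc0 : ∀ α, α ∉ {d : ℤ | 0 < d} → -4 * n0 α = 0 := by
    intro α hα; rw [hn0' α hα]; ring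
  have hp0 : ∀ a b, a ∉ {d : ℤ | 0 < d} ∨ b ∉ {d : ℤ | 0 < d} → 2 * n0 a * n0 b = 0 := by
    intro a b hab
    rcases hab with h | h
    · rw [hn0' a h]; ring
    · rw [hn0' b h]; ring
  have hg : ∀ β ∈ {d : ℤ | 0 < d}, (-4 : ℚ) ^ β.toNat / (24 * β) =
      mcs (fun d => 1 / (d : ℚ)) g β := by
    intro β hβ
    obtain ⟨d, rfl⟩ : ∃ d : ℕ, β = d := ⟨β.toNat, by
      have : (0 : ℤ) < β := hβ
      omega⟩
    have hd : 0 < d := by
      have : (0 : ℤ) < (d : ℤ) := hβ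
      exact_mod_cast this
    rw [mcs_int _ hg0, Int.toNat_natCast]
    have hd' : (d : ℚ) ≠ 0 := by positivity
    have h2 : ∑ a ∈ d.divisors, 1 / ((d / a : ℕ) : ℚ) * g (a : ℤ) =
        1 / (24 * d) * ((∑ a ∈ d.divisors, (a : ℤ) * Gz a : ℤ) : ℚ) := by
      push_cast
      rw [Finset.mul_sum]
      apply Finset.sum_congr rfl
      intro a ha
      have ha0 := Nat.pos_of_mem_divisors ha
      have ha' : (a : ℚ) ≠ 0 := by positivity
      rw [hgn a ha0, Nat.cast_div (Nat.dvd_of_mem_divisors ha) ha']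
      field_simp
    rw [h2, hG d hd]
    push_cast
    ring
  -- step 5
  have hcl := fun β => genusOne_closed isEff_int hc0 hp0 hm hn1 hg0 hg β
  have hall : ∀ β ∈ {d : ℤ | 0 < d}, IsInt (mcs (fun k => ∑ i ∈ k.divisors, (i : ℚ)) n1 β) := by
    intro β hβ
    obtain ⟨d, rfl⟩ : ∃ d : ℕ, β = d := ⟨β.toNat, by
      have : (0 : ℤ) < β := hβ
      omega⟩
    have hd : 0 < d := by
      have : (0 : ℤ) < (d : ℤ) := hβ
      exact_mod_cast this
    rw [hcl, mcs_int _ hg0, mcs_int _ hc0, pairSum_int 2 hn0']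
    obtain ⟨z, hz⟩ := total_mod24 hn hG hd
    refine ⟨z, ?_⟩
    have e1 : ∑ a ∈ d.divisors, ((d / a : ℕ) : ℚ) * g (a : ℤ) = (NN Gz d : ℚ) / 24 := by
      unfold NN
      rw [Int.cast_sum, Finset.sum_div]
      apply Finset.sum_congr rfl
      intro a ha
      rw [hgn a (Nat.pos_of_mem_divisors ha), Int.cast_mul, Int.cast_natCast]
      ring
    have e2 : ∀ i : ℕ, ∑ a ∈ i.divisors, n0 (a : ℤ) = (VV nz i : ℚ) := by
      intro i
      unfold VV
      push_cast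
      apply Finset.sum_congr rfl
      intro a _
      rw [hnz a]
    have e3 : ∑ a ∈ d.divisors, (1 : ℚ) * (-4 * n0 (a : ℤ)) = -4 * (VV nz d : ℚ) := by
      rw [← e2 d, Finset.mul_sum]
      apply Finset.sum_congr rfl
      intro a _
      ring
    rw [e1, e3]
    have e4 : ∑ x ∈ antidiagonal d, (∑ a ∈ x.1.divisors, n0 (a : ℤ)) * (∑ c ∈ x.2.divisors, n0 (c : ℤ)) =
        ((∑ x ∈ antidiagonal d, VV nz x.1 * VV nz x.2 : ℤ) : ℚ) := by
      push_cast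
      apply Finset.sum_congr rfl
      intro x _
      rw [e2, e2]
    rw [e4]
    have hz' : (NN Gz d : ℚ) - 4 * VV nz d - 2 * ((∑ x ∈ antidiagonal d, VV nz x.1 * VV nz x.2 : ℤ) : ℚ)
        = 24 * z := by exact_mod_cast hz
    linarith
  have hfin := (isInt_iff isEff_int hn1.1).mpr hall
  intro d hd
  refine ⟨?_, hfin d hd⟩
  obtain ⟨e, rfl⟩ : ∃ e : ℕ, d = e := ⟨d.toNat, by omega⟩
  exact ⟨nz e, hnz e⟩

end Pool.Agent.Results.MP_a4e0fb_ag.ExtremalPlane
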