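import Pool.Agent.Lib.MP_a4e0fb_ag.H72Genus1

open Finset MPa4e0fb

namespace Pool.Agent.Results.MP_a4e0fb_ag.MeetingElimination

/-- existence of the numbers `g_β` with `Z₁ = - ∑ g_β log (1 - q^β)` -/
lemma exists_g {Γ : Type*} [AddCommGroup Γ] {deg : Γ →+ ℤ} {E : Set Γ} (hE : IsEff deg E)
    {c GW1 n1 : Γ → ℚ} {p m : Γ → Γ → ℚ}
    (hc : ∀ a, a ∉ E → c a = 0) (hp : ∀ a b, a ∉ E ∨ b ∉ E → p a b = 0)
    (hm : IsMeeting deg c p m) (hn : IsGenusOne E GW1 c m n1) :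
    ∃ g : Γ → ℚ, (∀ a, a ∉ E → g a = 0) ∧ ∀ β ∈ E, GW1 β = mcs (fun d => 1 / (d : ℚ)) g β := by
  have hm0 := fun a b => meeting_zero hE hc hp hm a b
  have hM0 := msum_supp hE hm0
  have h11 : ∀ a, a ∉ E → mcs (fun _ => 1) n1 a = 0 := mcs_supp hE _ hn.1
  have s1 : ∀ a, a ∉ E → (-1) * msum m a = 0 := by intro a ha; rw [hM0 a ha]; simp
  have s2 : ∀ a, a ∉ E → c a + (-1) * msum m a = 0 := by intro a ha; rw [hc a ha, s1 a ha]; simp
  have s3 : ∀ a, a ∉ E → (-1 / 24 : ℚ) * (c a + (-1) * msum m a) = 0 := by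
    intro a ha; rw [s2 a ha]; simp
  refine ⟨fun a => mcs (fun _ => 1) n1 a + (-1 / 24) * (c a + (-1) * msum m a), ?_, ?_⟩
  · intro a ha
    simp only
    rw [h11 a ha, s3 a ha, add_zero]
  · intro β hβ
    rw [mcs_add' hE _ h11 s3, mcs_smul', mcs_add' hE _ hc s1, mcs_smul', mcs_mcs hE _ _ hn.1]
    have e1 := hn.2 β hβ
    rw [meetSum_eq hE hm0] at e1
    have e2 : dconv (fun k => 1 / (k : ℚ)) (fun _ => 1) =
        fun n : ℕ => (∑ i ∈ n.divisors, (i : ℚ)) / n := by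
      funext n; exact dconv_inv_one n
    rw [e2, e1]
    ring

/-- **Elimination of the Klemm-Pandharipande meeting numbers.**
`Γ = H_2(X, ℤ)`, `E` = the classes `β > 0`, `n0 β i = n_{0,β}(S_i)`, `ginv i j = g^{ij}`,
`c₂(X) = ∑ c2 i • S_i`, `GW1 β = GW_{1,β}`, `m` = meeting numbers, `n1 β = n_{1,β}`. There are unique
numbers `g_β` with `Z₁ = ∑ GW_{1,β} q^β = - ∑ g_β log (1 - q^β)`, and for every `β`
`∑_{kα=β} σ(k) n_{1,α} = ∑_{kα=β} k g_α + (1/24) (∑_{kα=β} n_{0,α}(c₂) - ∑_{kα+lγ=β} ⟨α,γ⟩)`.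
All `n_{1,β}` are integers if and only if all the right-hand sides are integers. -/
theorem result {Γ : Type*} [AddCommGroup Γ] (deg : Γ →+ ℤ) (E : Set Γ) (hE : IsEff deg E)
    {s : ℕ} (n0 : Γ → Fin s → ℚ) (hn0 : ∀ β, β ∉ E → n0 β = 0)
    (ginv : Fin s → Fin s → ℚ) (c2 : Fin s → ℚ) (GW1 : Γ → ℚ) (m : Γ → Γ → ℚ) (n1 : Γ → ℚ)
    (hm : IsMeeting deg (fun β => ∑ i, c2 i * n0 β i)
      (fun α γ => ∑ i, ∑ j, n0 α i * ginv i j * n0 γ j) m)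
    (hn1 : IsGenusOne E GW1 (fun β => ∑ i, c2 i * n0 β i) m n1) :
    ∃! g : Γ → ℚ, ((∀ a, a ∉ E → g a = 0) ∧
        ∀ β ∈ E, GW1 β = mcs (fun d => 1 / (d : ℚ)) g β) ∧
      (∀ β, mcs (fun k => ∑ i ∈ k.divisors, (i : ℚ)) n1 β =
        mcs (fun k => (k : ℚ)) g β + 1 / 24 * (mcs (fun _ => 1) (fun β => ∑ i, c2 i * n0 β i) β
          - pairSum (fun α γ => ∑ i, ∑ j, n0 α i * ginv i j * n0 γ j) β)) ∧
      ((∀ β ∈ E, ∃ z : ℤ, n1 β = z) ↔ ∀ β ∈ E, ∃ z : ℤ,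
        mcs (fun k => (k : ℚ)) g β + 1 / 24 * (mcs (fun _ => 1) (fun β => ∑ i, c2 i * n0 β i) β
          - pairSum (fun α γ => ∑ i, ∑ j, n0 α i * ginv i j * n0 γ j) β) = z) := by
  have hc : ∀ a, a ∉ E → (fun β => ∑ i, c2 i * n0 β i) a = 0 := by
    intro a ha
    simp [hn0 a ha]
  have hp : ∀ a b, a ∉ E ∨ b ∉ E →
      (fun α γ => ∑ i, ∑ j, n0 α i * ginv i j * n0 γ j) a b = 0 := by
    intro a b hab
    rcases hab with h | h
    · simp [hn0 a h]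
    · simp [hn0 b h]
  obtain ⟨g, hg0, hg⟩ := exists_g hE hc hp hm hn1
  have hcl := fun β => genusOne_closed hE hc hp hm hn1 hg0 hg β
  refine ⟨g, ⟨⟨hg0, hg⟩, hcl, ?_⟩, ?_⟩
  · have h := isInt_iff hE hn1.1
    unfold IsInt at h
    rw [h]
    constructor
    · intro h' β hβ
      rw [← hcl β]
      exact h' β hβ
    · intro h' β hβ
      rw [hcl β]
      exact h' β hβ
  · rintro g' ⟨⟨hg0', hg'⟩, _, _⟩
    have hd0 : ∀ a, a ∉ E → g' a + (-1) * g a = 0 := by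
      intro a ha; rw [hg0 a ha, hg0' a ha]; simp
    have hs : ∀ a, a ∉ E → (-1) * g a = 0 := by
      intro a ha; rw [hg0 a ha]; simp
    have hz : ∀ β ∈ E, mcs (fun d => 1 / (d : ℚ)) (fun a => g' a + (-1) * g a) β = 0 := by
      intro β hβ
      rw [mcs_add' hE _ hg0' hs, mcs_smul', ← hg β hβ, ← hg' β hβ]
      ring
    have := mcs_inj hE _ (by norm_num) hd0 hz
    funext a
    have ha := this a
    linarith

end Pool.Agent.Results.MP_a4e0fb_ag.MeetingElimination
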